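import Mathlib
import Pool.Agent.W426.SM.Stm

/-!
# Project SM, part ZMU: distribution of the order on the units
-/

set_option autoImplicit false
set_option linter.unusedSectionVars false

namespace Pool.Agent.W424.SM.ZMU

open MeasureTheory Pool.Agent.W426.SM

section alg

variable {n k : ℕ} {p : ℕ} [hp : Fact p.Prime]

lemma toZMod_eq_zero {x : ℤ_[p]} : PadicInt.toZMod x = 0 ↔ ‖x‖ < 1 := by
  rw [← RingHom.mem_ker, PadicInt.ker_toZMod, IsLocalRing.mem_maximalIdeal, PadicInt.mem_nonunits]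

lemma toZMod_eq_zero' {x : ℤ_[p]} : PadicInt.toZMod x = 0 ↔ (p : ℤ_[p]) ∣ x := by
  rw [toZMod_eq_zero, PadicInt.norm_lt_one_iff_dvd]

lemma toZMod_ne_zero {x : ℤ_[p]} : PadicInt.toZMod x ≠ 0 ↔ ‖x‖ = 1 := by
  rw [Ne, toZMod_eq_zero, not_lt]
  exact ⟨fun h => le_antisymm (PadicInt.norm_le_one x) h, fun h => h.ge⟩

lemma toZMod_p : PadicInt.toZMod (p : ℤ_[p]) = 0 := by
  rw [toZMod_eq_zero']

/-- the terms -/
noncomputable def XX (m : Fin k → Fin n → ℕ) (b : Fin k → ℤ_[p]) (y : Fin n → ℤ_[p])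
    (j : Fin k) : ℤ_[p] := b j * ∏ i, y i ^ m j i

/-- the sum -/
noncomputable def GG (m : Fin k → Fin n → ℕ) (b : Fin k → ℤ_[p]) (y : Fin n → ℤ_[p]) : ℤ_[p] :=
  ∑ j, XX m b y j

/-- the logarithmic derivatives -/
noncomputable def DD (m : Fin k → Fin n → ℕ) (b : Fin k → ℤ_[p]) (i : Fin n)
    (y : Fin n → ℤ_[p]) : ℤ_[p] := ∑ j, (m j i : ℤ_[p]) * XX m b y j

variable (m : Fin k → Fin n → ℕ) (b : Fin k → ℤ_[p])

lemma XX_congr {y y' : Fin n → ℤ_[p]} (h : ∀ i, PadicInt.toZMod (y i) = PadicInt.toZMod (y' i))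
    (j : Fin k) : PadicInt.toZMod (XX m b y j) = PadicInt.toZMod (XX m b y' j) := by
  unfold XX
  rw [map_mul, map_mul, map_prod, map_prod]
  congr 1
  apply Finset.prod_congr rfl
  intro i _
  rw [map_pow, map_pow, h i]

lemma GG_congr {y y' : Fin n → ℤ_[p]} (h : ∀ i, PadicInt.toZMod (y i) = PadicInt.toZMod (y' i)) :
    PadicInt.toZMod (GG m b y) = PadicInt.toZMod (GG m b y') := by
  unfold GG
  rw [map_sum, map_sum]
  exact Finset.sum_congr rfl fun j _ => XX_congr m b h j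

lemma DD_congr {y y' : Fin n → ℤ_[p]} (h : ∀ i, PadicInt.toZMod (y i) = PadicInt.toZMod (y' i))
    (i : Fin n) : PadicInt.toZMod (DD m b i y) = PadicInt.toZMod (DD m b i y') := by
  unfold DD
  rw [map_sum, map_sum]
  refine Finset.sum_congr rfl fun j _ => ?_
  rw [map_mul, map_mul, XX_congr m b h j]

lemma taylor (y : Fin n → ℤ_[p]) (i : Fin n) :
    ∃ D : ℤ_[p], D * y i = DD m b i y ∧
      ∀ h : ℤ_[p], ∃ E : ℤ_[p], GG m b (Pi.single i h + y) = GG m b y + D * h + E * h ^ 2 := by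
  classical
  refine ⟨∑ j, (b j * ∏ i' ∈ Finset.univ.erase i, y i' ^ m j i') * ((m j i : ℤ_[p]) *
    y i ^ (m j i - 1)), ?_, ?_⟩
  · rw [Finset.sum_mul]
    unfold DD XX
    refine Finset.sum_congr rfl fun j _ => ?_
    rw [← Finset.mul_prod_erase Finset.univ (fun i' => y i' ^ m j i') (Finset.mem_univ i)]
    rcases Nat.eq_zero_or_pos (m j i) with h | h
    · simp [h]
    · obtain ⟨r, hr⟩ : ∃ r, m j i = r + 1 := ⟨m j i - 1, by omega⟩
      rw [hr, Nat.add_sub_cancel, pow_succ]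
      ring
  · intro h
    choose E hE using fun j : Fin k => (⟨(Polynomial.powAddExpansion (y i) h (m j i)).1,
      (Polynomial.powAddExpansion (y i) h (m j i)).2⟩ :
      ∃ E : ℤ_[p], (y i + h) ^ m j i = y i ^ m j i + (m j i : ℤ_[p]) * y i ^ (m j i - 1) * h +
        E * h ^ 2)
    refine ⟨∑ j, (b j * ∏ i' ∈ Finset.univ.erase i, y i' ^ m j i') * E j, ?_⟩
    unfold GG XX
    rw [Finset.sum_mul, Finset.sum_mul, ← Finset.sum_add_distrib, ← Finset.sum_add_distrib]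
    refine Finset.sum_congr rfl fun j _ => ?_
    obtain ⟨z, hz⟩ : ∃ z : Fin n → ℤ_[p], z = Pi.single i h + y := ⟨_, rfl⟩
    rw [← hz]
    have e1 : z i = y i + h := by
      rw [hz, Pi.add_apply, Pi.single_eq_same, add_comm]
    have e2 : ∏ i' ∈ Finset.univ.erase i, z i' ^ m j i' =
        ∏ i' ∈ Finset.univ.erase i, y i' ^ m j i' := by
      refine Finset.prod_congr rfl fun i' hi' => ?_
      rw [hz, Pi.add_apply, Pi.single_eq_of_ne (Finset.ne_of_mem_erase hi'), zero_add]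
    rw [← Finset.mul_prod_erase Finset.univ (fun i' => y i' ^ m j i') (Finset.mem_univ i),
      ← Finset.mul_prod_erase Finset.univ (fun i' => z i' ^ m j i') (Finset.mem_univ i), e2]
    simp only [e1, hE j]
    ring

/-- the first good coordinate is `i` -/
def PP (i : Fin n) (y : Fin n → ℤ_[p]) : Prop :=
  (∀ i', ‖y i'‖ = 1) ∧ ‖GG m b y‖ < 1 ∧ ‖DD m b i y‖ = 1 ∧ ∀ i' < i, ‖DD m b i' y‖ < 1

lemma PP_congr {y y' : Fin n → ℤ_[p]} (h : ∀ i, PadicInt.toZMod (y i) = PadicInt.toZMod (y' i))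
    (i : Fin n) : PP m b i y ↔ PP m b i y' := by
  unfold PP
  simp only [← toZMod_eq_zero, ← toZMod_ne_zero, h, GG_congr m b h, DD_congr m b h]

/-- the sets of the induction -/
def AA (i : Fin n) (l : ℕ) : Set (Fin n → ℤ_[p]) :=
  {y | PP m b i y ∧ (p : ℤ_[p]) ^ (l + 1) ∣ GG m b y}

lemma single_congr (i : Fin n) (l : ℕ) (r : ℤ_[p]) (y : Fin n → ℤ_[p]) (i' : Fin n) :
    PadicInt.toZMod ((Pi.single i ((p : ℤ_[p]) ^ (l + 1) * r) + y : Fin n → ℤ_[p]) i') =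
      PadicInt.toZMod (y i') := by
  classical
  rw [Pi.add_apply, map_add]
  have : PadicInt.toZMod ((Pi.single i ((p : ℤ_[p]) ^ (l + 1) * r) : Fin n → ℤ_[p]) i') = 0 := by
    rcases eq_or_ne i' i with h | h
    · subst h
      rw [Pi.single_eq_same, map_mul, map_pow, toZMod_p, zero_pow (by omega), zero_mul]
    · rw [Pi.single_eq_of_ne h, map_zero]
  rw [this, zero_add]

lemma mem_AA_iff (i : Fin n) (l : ℕ) (y : Fin n → ℤ_[p]) (hy : y ∈ AA m b i l) :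
    ∃ r₀ : ZMod p, ∀ r : ℕ,
      (Pi.single i ((p : ℤ_[p]) ^ (l + 1) * (r : ℤ_[p])) + y : Fin n → ℤ_[p]) ∈ AA m b i (l + 1) ↔
        (r : ZMod p) = r₀ := by
  obtain ⟨hP, w, hw⟩ := hy
  obtain ⟨D, hD, hT⟩ := taylor m b y i
  have hD1 : PadicInt.toZMod D ≠ 0 := by
    have h1 : PadicInt.toZMod (DD m b i y) ≠ 0 := toZMod_ne_zero.2 hP.2.2.1
    rw [← hD, map_mul] at h1
    exact left_ne_zero_of_mul h1
  refine ⟨- PadicInt.toZMod w / PadicInt.toZMod D, fun r => ?_⟩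
  obtain ⟨E, hE⟩ := hT ((p : ℤ_[p]) ^ (l + 1) * (r : ℤ_[p]))
  have hPP : PP m b i (Pi.single i ((p : ℤ_[p]) ^ (l + 1) * (r : ℤ_[p])) + y) :=
    (PP_congr m b (single_congr i l r y) i).2 hP
  have e : (Pi.single i ((p : ℤ_[p]) ^ (l + 1) * (r : ℤ_[p])) + y : Fin n → ℤ_[p]) ∈
      AA m b i (l + 1) ↔ (p : ℤ_[p]) ^ (l + 1 + 1) ∣
        GG m b (Pi.single i ((p : ℤ_[p]) ^ (l + 1) * (r : ℤ_[p])) + y) :=
    ⟨fun h => h.2, fun h => ⟨hPP, h⟩⟩
  rw [e, hE, hw]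
  have e2 : (p : ℤ_[p]) ^ (l + 1) * w + D * ((p : ℤ_[p]) ^ (l + 1) * (r : ℤ_[p])) +
      E * ((p : ℤ_[p]) ^ (l + 1) * (r : ℤ_[p])) ^ 2 =
      (p : ℤ_[p]) ^ (l + 1) * (w + D * r + p * (p ^ l * E * r ^ 2)) := by
    rw [pow_succ (p : ℤ_[p]) l]
    ring
  rw [e2, pow_succ (p : ℤ_[p]) (l + 1)]
  have hp0 : (p : ℤ_[p]) ^ (l + 1) ≠ 0 := pow_ne_zero _ (by exact_mod_cast hp.out.ne_zero)
  rw [mul_dvd_mul_iff_left hp0, ← toZMod_eq_zero', map_add, map_mul, toZMod_p, zero_mul, add_zero,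
    map_add, map_mul, map_natCast, eq_div_iff hD1, eq_neg_iff_add_eq_zero, add_comm, mul_comm]

lemma AA_of_mem (i : Fin n) (l : ℕ) (r : ℕ) (y : Fin n → ℤ_[p])
    (hy : (Pi.single i ((p : ℤ_[p]) ^ (l + 1) * (r : ℤ_[p])) + y : Fin n → ℤ_[p]) ∈
      AA m b i (l + 1)) : y ∈ AA m b i l := by
  obtain ⟨hP, hd⟩ := hy
  obtain ⟨D, hD, hT⟩ := taylor m b y i
  obtain ⟨E, hE⟩ := hT ((p : ℤ_[p]) ^ (l + 1) * (r : ℤ_[p]))
  refine ⟨(PP_congr m b (single_congr i l r y) i).1 hP, ?_⟩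
  have h1 : (p : ℤ_[p]) ^ (l + 1) ∣
      GG m b (Pi.single i ((p : ℤ_[p]) ^ (l + 1) * (r : ℤ_[p])) + y) :=
    (pow_dvd_pow _ (by omega)).trans hd
  rw [hE, add_assoc] at h1
  refine (dvd_add_left ?_).1 h1
  refine dvd_add ?_ ?_
  · exact Dvd.dvd.mul_left (dvd_mul_right _ _) _
  · refine Dvd.dvd.mul_left (dvd_pow (dvd_mul_right _ _) (by norm_num)) _

lemma AA_eq (i : Fin n) (l : ℕ) : AA m b i l = ⋃ r ∈ Finset.range p,
    (fun y => (Pi.single i ((p : ℤ_[p]) ^ (l + 1) * (r : ℤ_[p])) : Fin n → ℤ_[p]) + y) ⁻¹'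
      AA m b i (l + 1) := by
  ext y
  simp only [Set.mem_iUnion, Set.mem_preimage, exists_prop]
  constructor
  · intro hy
    obtain ⟨r₀, hr⟩ := mem_AA_iff m b i l y hy
    refine ⟨r₀.val, Finset.mem_range.2 (ZMod.val_lt r₀), ?_⟩
    rw [hr]
    exact ZMod.natCast_zmod_val r₀
  · rintro ⟨r, -, hr⟩
    exact AA_of_mem m b i l r y hr

lemma AA_disj (i : Fin n) (l : ℕ) : Set.PairwiseDisjoint (↑(Finset.range p) : Set ℕ)
    (fun r : ℕ =>
    (fun y => (Pi.single i ((p : ℤ_[p]) ^ (l + 1) * (r : ℤ_[p])) : Fin n → ℤ_[p]) + y) ⁻¹'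
      AA m b i (l + 1)) := by
  intro r hr r' hr' hne
  rw [Function.onFun, Set.disjoint_left]
  intro y h1 h2
  have hy : y ∈ AA m b i l := AA_of_mem m b i l r y h1
  obtain ⟨r₀, hr₀⟩ := mem_AA_iff m b i l y hy
  have e1 := (hr₀ r).1 h1
  have e2 := (hr₀ r').1 h2
  rw [Finset.coe_range, Set.mem_Iio] at hr hr'
  apply hne
  have e3 : (r : ZMod p) = (r' : ZMod p) := by rw [e1, e2]
  rw [ZMod.natCast_eq_natCast_iff'] at e3
  rwa [Nat.mod_eq_of_lt hr, Nat.mod_eq_of_lt hr'] at e3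

end alg

section meas

variable {n k : ℕ} {p : ℕ} [hp : Fact p.Prime] (m : Fin k → Fin n → ℕ) (b : Fin k → ℤ_[p])
  [MeasurableSpace (Fin n → ℤ_[p])] [BorelSpace (Fin n → ℤ_[p])]

lemma cont_XX (j : Fin k) : Continuous (fun y : Fin n → ℤ_[p] => XX m b y j) := by
  unfold XX
  fun_prop

lemma cont_GG : Continuous (fun y : Fin n → ℤ_[p] => GG m b y) := by
  unfold GG
  exact continuous_finsetSum _ fun j _ => cont_XX m b j

lemma cont_DD (i : Fin n) : Continuous (fun y : Fin n → ℤ_[p] => DD m b i y) := by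
  unfold DD
  exact continuous_finsetSum _ fun j _ => continuous_const.mul (cont_XX m b j)

lemma dvd_iff (x : ℤ_[p]) (l : ℕ) : (p : ℤ_[p]) ^ l ∣ x ↔ ‖x‖ ≤ (p : ℝ) ^ (-(l : ℤ)) := by
  rw [PadicInt.norm_le_pow_iff_mem_span_pow, Ideal.mem_span_singleton]

lemma meas_dvd (l : ℕ) : MeasurableSet {y : Fin n → ℤ_[p] | (p : ℤ_[p]) ^ l ∣ GG m b y} := by
  have : {y : Fin n → ℤ_[p] | (p : ℤ_[p]) ^ l ∣ GG m b y} =
      {y | ‖GG m b y‖ ≤ (p : ℝ) ^ (-(l : ℤ))} := by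
    ext y
    exact dvd_iff _ _
  rw [this]
  exact (isClosed_le (cont_GG m b).norm continuous_const).measurableSet

lemma meas_PP (i : Fin n) : MeasurableSet {y : Fin n → ℤ_[p] | PP m b i y} := by
  unfold PP
  refine MeasurableSet.inter ?_ (MeasurableSet.inter ?_ (MeasurableSet.inter ?_ ?_))
  · have : {y : Fin n → ℤ_[p] | ∀ i', ‖y i'‖ = 1} = ⋂ i', {y | ‖y i'‖ = 1} := by
      ext y
      simp
    show MeasurableSet {y : Fin n → ℤ_[p] | ∀ i', ‖y i'‖ = 1}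
    rw [this]
    exact MeasurableSet.iInter fun i' =>
      (isClosed_eq (continuous_apply i').norm continuous_const).measurableSet
  · exact (isOpen_lt (cont_GG m b).norm continuous_const).measurableSet
  · exact (isClosed_eq (cont_DD m b i).norm continuous_const).measurableSet
  · have : {y : Fin n → ℤ_[p] | ∀ i' < i, ‖DD m b i' y‖ < 1} =
        ⋂ i', ⋂ _ : i' < i, {y | ‖DD m b i' y‖ < 1} := by
      ext y
      simp
    show MeasurableSet {y : Fin n → ℤ_[p] | ∀ i' < i, ‖DD m b i' y‖ < 1}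
    rw [this]
    exact MeasurableSet.iInter fun i' => MeasurableSet.iInter fun _ =>
      (isOpen_lt (cont_DD m b i').norm continuous_const).measurableSet

lemma meas_AA (i : Fin n) (l : ℕ) : MeasurableSet (AA m b i l) :=
  (meas_PP m b i).inter (meas_dvd m b (l + 1))

lemma AA_succ (i : Fin n) (l : ℕ) (μ : Measure (Fin n → ℤ_[p])) [μ.IsAddLeftInvariant] :
    μ (AA m b i l) = p * μ (AA m b i (l + 1)) := by
  rw [AA_eq m b i l, measure_biUnion_finset (AA_disj m b i l)]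
  · have h1 : ∀ r ∈ Finset.range p, μ ((fun y : Fin n → ℤ_[p] =>
        (Pi.single i ((p : ℤ_[p]) ^ (l + 1) * (r : ℤ_[p])) : Fin n → ℤ_[p]) + y) ⁻¹'
          AA m b i (l + 1)) = μ (AA m b i (l + 1)) := fun r _ => measure_preimage_add μ _ _
    rw [Finset.sum_congr rfl h1, Finset.sum_const, Finset.card_range, nsmul_eq_mul]
  · intro r _
    exact (meas_AA m b i (l + 1)).preimage (measurable_const_add _)

/-- units with `p ^ (l + 1)` dividing -/
def UU (l : ℕ) : Set (Fin n → ℤ_[p]) :=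
  {y | (∀ i, ‖y i‖ = 1) ∧ (p : ℤ_[p]) ^ (l + 1) ∣ GG m b y}

lemma UU_eq (hnd : ∀ y : Fin n → ℤ_[p], (∀ i, ‖y i‖ = 1) → ‖GG m b y‖ < 1 →
    ∃ i, ‖DD m b i y‖ = 1) (l : ℕ) : UU m b l = ⋃ i ∈ (Finset.univ : Finset (Fin n)),
      AA m b i l := by
  classical
  ext y
  simp only [Set.mem_iUnion, Finset.mem_univ, exists_true_left]
  constructor
  · rintro ⟨h1, h2⟩
    have h3 : ‖GG m b y‖ < 1 := by
      rw [PadicInt.norm_lt_one_iff_dvd]
      exact (dvd_pow_self _ (by omega)).trans h2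
    obtain ⟨i, hi⟩ := hnd y h1 h3
    have hne : (Finset.univ.filter fun i => ‖DD m b i y‖ = 1).Nonempty :=
      ⟨i, Finset.mem_filter.2 ⟨Finset.mem_univ i, hi⟩⟩
    refine ⟨(Finset.univ.filter fun i => ‖DD m b i y‖ = 1).min' hne, ⟨⟨h1, h3, ?_, ?_⟩, h2⟩⟩
    · exact (Finset.mem_filter.1 (Finset.min'_mem _ hne)).2
    · intro i' hi'
      refine lt_of_le_of_ne (PadicInt.norm_le_one _) fun h => ?_
      exact absurd (Finset.min'_le _ i' (Finset.mem_filter.2 ⟨Finset.mem_univ i', h⟩))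
        (not_le.2 hi')
  · rintro ⟨i, hP, h2⟩
    exact ⟨hP.1, h2⟩

lemma UU_disj (l : ℕ) : Set.PairwiseDisjoint (↑(Finset.univ : Finset (Fin n)) : Set (Fin n))
    (fun i => AA m b i l) := by
  intro i _ i' _ hne
  rw [Function.onFun, Set.disjoint_left]
  rintro y ⟨h1, -⟩ ⟨h2, -⟩
  rcases lt_or_gt_of_ne hne with h | h
  · exact absurd h1.2.2.1 (h2.2.2.2 i h).ne
  · exact absurd h2.2.2.1 (h1.2.2.2 i' h).ne

lemma UU_succ (hnd : ∀ y : Fin n → ℤ_[p], (∀ i, ‖y i‖ = 1) → ‖GG m b y‖ < 1 →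
    ∃ i, ‖DD m b i y‖ = 1) (l : ℕ) (μ : Measure (Fin n → ℤ_[p])) [μ.IsAddLeftInvariant] :
    μ (UU m b l) = p * μ (UU m b (l + 1)) := by
  rw [UU_eq m b hnd l, UU_eq m b hnd (l + 1), measure_biUnion_finset (UU_disj m b l),
    measure_biUnion_finset (UU_disj m b (l + 1)), Finset.mul_sum]
  · exact Finset.sum_congr rfl fun i _ => AA_succ m b i l μ
  · intro i _
    exact meas_AA m b i (l + 1)
  · intro i _
    exact meas_AA m b i l

lemma meas_UU (l : ℕ) : MeasurableSet (UU m b l) := by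
  refine MeasurableSet.inter ?_ (meas_dvd m b (l + 1))
  have : {y : Fin n → ℤ_[p] | ∀ i', ‖y i'‖ = 1} = ⋂ i', {y | ‖y i'‖ = 1} := by
    ext y
    simp
  show MeasurableSet {y : Fin n → ℤ_[p] | ∀ i', ‖y i'‖ = 1}
  rw [this]
  exact MeasurableSet.iInter fun i' =>
    (isClosed_eq (continuous_apply i').norm continuous_const).measurableSet

lemma UU_real (hnd : ∀ y : Fin n → ℤ_[p], (∀ i, ‖y i‖ = 1) → ‖GG m b y‖ < 1 →
    ∃ i, ‖DD m b i y‖ = 1) (l : ℕ) (μ : Measure (Fin n → ℤ_[p])) [μ.IsAddLeftInvariant]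
    [IsFiniteMeasure μ] :
    (μ (UU m b l)).toReal = (μ (UU m b 0)).toReal * (p : ℝ) ^ (-(l : ℤ)) := by
  have hp0 : (p : ℝ) ≠ 0 := by exact_mod_cast hp.out.ne_zero
  induction l with
  | zero => simp
  | succ l ih =>
    have h := congrArg ENNReal.toReal (UU_succ m b hnd l μ)
    rw [ENNReal.toReal_mul, ENNReal.toReal_natCast, ih] at h
    have e : (p : ℝ) ^ (-((l + 1 : ℕ) : ℤ)) = (p : ℝ) ^ (-(l : ℤ)) * (p : ℝ)⁻¹ := by
      rw [← zpow_sub_one₀ hp0]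
      congr 1
      push_cast
      ring
    rw [e]
    field_simp
    linarith

end meas

lemma clear_den {ι : Type*} [Fintype ι] (q : ι → ℚ) :
    ∃ N : ℕ, N ≠ 0 ∧ ∃ z : ι → ℤ, ∀ i, (N : ℚ) * q i = z i := by
  classical
  refine ⟨∏ i, (q i).den, Finset.prod_ne_zero_iff.2 fun i _ => (q i).den_nz,
    fun i => (∏ i' ∈ Finset.univ.erase i, ((q i').den : ℤ)) * (q i).num, fun i => ?_⟩
  rw [← Finset.mul_prod_erase Finset.univ (fun i => (q i).den) (Finset.mem_univ i)]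
  push_cast
  have h := Rat.mul_den_eq_num (q i)
  rw [← h]
  ring

lemma nondeg {n k : ℕ} (m : Fin k → Fin n → ℕ) (hm : AffInd m) :
    ∃ N : ℕ, N ≠ 0 ∧ ∃ (B₀ : Fin k → ℤ) (B : Fin k → Fin n → ℤ), ∀ j j' : Fin k,
      B₀ j + ∑ i, B j i * (m j' i : ℤ) = if j' = j then (N : ℤ) else 0 := by
  classical
  let f : (Fin k → ℚ) →ₗ[ℚ] (ℚ × (Fin n → ℚ)) :=
    { toFun := fun X => (∑ j, X j, fun i => ∑ j, X j * (m j i : ℚ))
      map_add' := by
        intro X Y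
        refine Prod.ext ?_ ?_
        · simp [Finset.sum_add_distrib]
        · funext i
          simp [add_mul, Finset.sum_add_distrib]
      map_smul' := by
        intro r X
        refine Prod.ext ?_ ?_
        · simp [Finset.mul_sum]
        · funext i
          simp [mul_assoc, Finset.mul_sum] }
  have hf : LinearMap.ker f = ⊥ := by
    rw [LinearMap.ker_eq_bot']
    intro X hX
    have h1 : ∑ j, X j = 0 := congrArg Prod.fst hX
    have h2 : (fun i => ∑ j, X j * (m j i : ℚ)) = 0 := congrArg Prod.snd hX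
    have h3 := (affineIndependent_iff.1 hm) Finset.univ X h1 (by
      funext i
      have := congrFun h2 i
      simpa [Finset.sum_apply] using this)
    funext j
    exact h3 j (Finset.mem_univ j)
  obtain ⟨g, hg⟩ := LinearMap.exists_leftInverse_of_injective f hf
  have hgf : ∀ j j' : Fin k, g (1, 0) j + ∑ i, g (0, Pi.single i 1) j * (m j' i : ℚ) =
      if j' = j then 1 else 0 := by
    intro j j'
    have h1 : g (f (Pi.single j' 1)) = Pi.single j' 1 := by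
      have := LinearMap.congr_fun hg (Pi.single j' 1)
      simpa using this
    have h2 : f (Pi.single j' 1) = (1, 0) + ∑ i, (m j' i : ℚ) •
        ((0, Pi.single i 1) : ℚ × (Fin n → ℚ)) := by
      refine Prod.ext ?_ ?_
      · simp [f, Prod.fst_sum]
      · funext i
        simp [f, Prod.snd_sum, Finset.sum_apply, Pi.single_apply]
    rw [h2, map_add, map_sum] at h1
    have h3 := congrFun h1 j
    simp only [map_smul, Pi.add_apply, Finset.sum_apply, Pi.smul_apply, smul_eq_mul,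
      Pi.single_apply] at h3
    rw [Finset.sum_congr rfl fun i _ => mul_comm (g (0, Pi.single i 1) j) (m j' i : ℚ)]
    rw [h3]
    by_cases h : j' = j
    · rw [if_pos h, if_pos h.symm]
    · rw [if_neg h, if_neg (Ne.symm h)]
  obtain ⟨N, hN, z, hz⟩ := clear_den (fun x : Fin k × Option (Fin n) =>
    Option.elim x.2 (g (1, 0) x.1) (fun i => g (0, Pi.single i 1) x.1))
  refine ⟨N, hN, fun j => z (j, none), fun j i => z (j, some i), fun j j' => ?_⟩
  have h1 : ((z (j, none) + ∑ i, z (j, some i) * (m j' i : ℤ) : ℤ) : ℚ) =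
      ((if j' = j then (N : ℤ) else 0 : ℤ) : ℚ) := by
    push_cast
    rw [← hz (j, none)]
    have : ∀ i, ((z (j, some i) : ℤ) : ℚ) = N * g (0, Pi.single i 1) j := fun i =>
      (hz (j, some i)).symm
    simp only [this, Option.elim]
    have h4 := hgf j j'
    calc (N : ℚ) * g (1, 0) j + ∑ i, N * g (0, Pi.single i 1) j * (m j' i : ℚ)
        = N * (g (1, 0) j + ∑ i, g (0, Pi.single i 1) j * (m j' i : ℚ)) := by
          rw [mul_add, Finset.mul_sum]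
          congr 1
          exact Finset.sum_congr rfl fun i _ => by ring
      _ = _ := by
          rw [h4]
          split_ifs <;> simp
  exact_mod_cast h1

section fin

variable {n k : ℕ} {p : ℕ} [hp : Fact p.Prime] (m : Fin k → Fin n → ℕ) (b : Fin k → ℤ_[p])

lemma hnd_of {N : ℕ} {B₀ : Fin k → ℤ} {B : Fin k → Fin n → ℤ}
    (hB : ∀ j j' : Fin k, B₀ j + ∑ i, B j i * (m j' i : ℤ) = if j' = j then (N : ℤ) else 0)
    (hpN : ¬ p ∣ N) (j₀ : Fin k) (hj₀ : ‖b j₀‖ = 1) (y : Fin n → ℤ_[p]) (hy : ∀ i, ‖y i‖ = 1)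
    (hG : ‖GG m b y‖ < 1) : ∃ i, ‖DD m b i y‖ = 1 := by
  classical
  by_contra hcon
  push Not at hcon
  have hD : ∀ i, PadicInt.toZMod (DD m b i y) = 0 := by
    intro i
    by_contra h
    exact hcon i (toZMod_ne_zero.1 h)
  have hid : (N : ℤ_[p]) * XX m b y j₀ = (B₀ j₀ : ℤ_[p]) * GG m b y +
      ∑ i, (B j₀ i : ℤ_[p]) * DD m b i y := by
    unfold GG DD
    have h1 : ∑ i, (B j₀ i : ℤ_[p]) * ∑ j, (m j i : ℤ_[p]) * XX m b y j =
        ∑ j, (∑ i, (B j₀ i : ℤ_[p]) * (m j i : ℤ_[p])) * XX m b y j := by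
      simp only [Finset.mul_sum, Finset.sum_mul]
      rw [Finset.sum_comm]
      refine Finset.sum_congr rfl fun j _ => Finset.sum_congr rfl fun i _ => by ring
    rw [h1, Finset.mul_sum, ← Finset.sum_add_distrib]
    have h2 : ∀ j, (B₀ j₀ : ℤ_[p]) * XX m b y j +
        (∑ i, (B j₀ i : ℤ_[p]) * (m j i : ℤ_[p])) * XX m b y j =
        if j = j₀ then (N : ℤ_[p]) * XX m b y j else 0 := by
      intro j
      have h3 : ((B₀ j₀ : ℤ_[p]) + ∑ i, (B j₀ i : ℤ_[p]) * (m j i : ℤ_[p])) =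
          if j = j₀ then (N : ℤ_[p]) else 0 := by
        have := congrArg (fun t : ℤ => (t : ℤ_[p])) (hB j₀ j)
        simp only [Int.cast_add, Int.cast_sum, Int.cast_mul, Int.cast_natCast] at this
        rw [this]
        split_ifs <;> simp
      rw [← add_mul, h3]
      split_ifs <;> simp
    rw [Finset.sum_congr rfl fun j _ => h2 j, Finset.sum_ite_eq' Finset.univ j₀]
    simp
  have h4 := congrArg PadicInt.toZMod hid
  rw [map_mul, map_natCast, map_add, map_mul, toZMod_eq_zero.2 hG, mul_zero, zero_add,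
    map_sum] at h4
  rw [Finset.sum_eq_zero (fun i _ => by rw [map_mul, hD i, mul_zero])] at h4
  have hN0 : (N : ZMod p) ≠ 0 := by
    rw [Ne, ZMod.natCast_eq_zero_iff]
    exact hpN
  have h5 : PadicInt.toZMod (XX m b y j₀) = 0 := (mul_eq_zero.1 h4).resolve_left hN0
  rw [toZMod_eq_zero] at h5
  have h6 : ‖XX m b y j₀‖ = 1 := by
    unfold XX
    rw [norm_mul, hj₀, one_mul, norm_prod]
    exact Finset.prod_eq_one fun i _ => by rw [norm_pow, hy i, one_pow]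
  rw [h6] at h5
  exact lt_irrefl _ h5

lemma norm_rat_eq_one {q : ℚ} (h1 : ¬ p ∣ q.num.natAbs) (h2 : ¬ p ∣ q.den) :
    ‖(q : ℚ_[p])‖ = 1 := by
  have e : (q : ℚ_[p]) = (q.num : ℚ_[p]) / (q.den : ℚ_[p]) := by
    conv_lhs => rw [← Rat.num_div_den q]
    push_cast
    rfl
  have n1 : ‖(q.num : ℚ_[p])‖ = 1 := by
    refine le_antisymm (Padic.norm_int_le_one _) (not_lt.1 fun h => h1 ?_)
    rw [Padic.norm_intCast_lt_one_iff] at h
    exact Int.natCast_dvd.1 h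
  have n2 : ‖(q.den : ℚ_[p])‖ = 1 := by
    refine le_antisymm ?_ (not_lt.1 fun h => h2 (Padic.norm_natCast_lt_one_iff.1 h))
    have := Padic.norm_int_le_one (p := p) (q.den : ℤ)
    simpa using this
  rw [e, norm_div, n1, n2, div_one]

lemma diff_eq (l : ℕ) : {y : Fin n → ℤ_[p] | (∀ i, ‖y i‖ = 1) ∧
    ‖GG m b y‖ = (p : ℝ) ^ (-((l : ℤ) + 1))} = UU m b l \ UU m b (l + 1) := by
  ext y
  have h1 : (p : ℤ_[p]) ^ (l + 1) ∣ GG m b y ↔ ‖GG m b y‖ ≤ (p : ℝ) ^ (-((l : ℤ) + 1)) := by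
    rw [dvd_iff]
    push_cast
    rfl
  have h2 : (p : ℤ_[p]) ^ (l + 1 + 1) ∣ GG m b y ↔ ‖GG m b y‖ < (p : ℝ) ^ (-((l : ℤ) + 1)) := by
    rw [dvd_iff, PadicInt.norm_le_pow_iff_norm_lt_pow_add_one]
    have : (-((l + 1 + 1 : ℕ) : ℤ) + 1) = -((l : ℤ) + 1) := by push_cast; ring
    rw [this]
  simp only [Set.mem_ofPred_eq, Set.mem_sdiff, UU, h1, h2]
  constructor
  · rintro ⟨h, h'⟩
    exact ⟨⟨h, h'.le⟩, fun h3 => absurd h' h3.2.ne⟩
  · rintro ⟨⟨h, h'⟩, h3⟩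
    refine ⟨h, le_antisymm h' (not_lt.1 fun h4 => h3 ⟨h, h4⟩)⟩

end fin

theorem main : S_ZMU := by
  classical
  intro n k m c hm hc
  obtain ⟨N, hN, B₀, B, hB⟩ := nondeg m hm
  refine ⟨N.primeFactors ∪ Finset.univ.biUnion fun j =>
    (c j).num.natAbs.primeFactors ∪ (c j).den.primeFactors, ?_⟩
  intro p hp hpS _ _
  rw [Finset.mem_union, not_or] at hpS
  have hpN : ¬ p ∣ N := fun h => hpS.1 (Nat.mem_primeFactors.2 ⟨hp.out, h, hN⟩)
  have hcn : ∀ j, ‖((c j : ℚ) : ℚ_[p])‖ = 1 := by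
    intro j
    refine norm_rat_eq_one (fun h => hpS.2 ?_) (fun h => hpS.2 ?_)
    · refine Finset.mem_biUnion.2 ⟨j, Finset.mem_univ j, Finset.mem_union_left _ ?_⟩
      refine Nat.mem_primeFactors.2 ⟨hp.out, h, ?_⟩
      rw [Ne, Int.natAbs_eq_zero, Rat.num_eq_zero]
      exact hc j
    · refine Finset.mem_biUnion.2 ⟨j, Finset.mem_univ j, Finset.mem_union_right _ ?_⟩
      exact Nat.mem_primeFactors.2 ⟨hp.out, h, (c j).den_nz⟩
  let cz : Fin k → ℤ_[p] := fun j => ⟨((c j : ℚ) : ℚ_[p]), (hcn j).le⟩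
  have hcz : ∀ j, ‖cz j‖ = 1 := fun j => hcn j
  let bt : Finset (Fin k) → Fin k → ℤ_[p] := fun τ j => if j ∈ τ then cz j else 0
  let μ : Measure (Fin n → PadicInt p) := Measure.addHaar
  have hμ : (Measure.addHaar : Measure (Fin n → PadicInt p)) = μ := rfl
  rw [hμ]
  have hV : 0 < (μ Set.univ).toReal := by
    refine ENNReal.toReal_pos ?_ (measure_ne_top μ _)
    exact (isOpen_univ.measure_pos μ Set.univ_nonempty).ne'
  refine ⟨fun τ => (μ {y | (∀ i, ‖y i‖ = 1) ∧ ‖GG m (bt τ) y‖ = 1}).toReal / (μ Set.univ).toReal,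
    fun τ => (μ (UU m (bt τ) 0)).toReal / (μ Set.univ).toReal * (1 - (p : ℝ)⁻¹), ?_⟩
  intro δ hδ
  obtain ⟨j₀, hj₀⟩ := hδ
  set τ := Finset.univ.filter fun j => δ j = 0 with hτ
  let b : Fin k → ℤ_[p] := fun j => cz j * (p : ℤ_[p]) ^ δ j
  have hbj₀ : ‖b j₀‖ = 1 := by
    show ‖cz j₀ * (p : ℤ_[p]) ^ δ j₀‖ = 1
    rw [hj₀, pow_zero, mul_one]
    exact hcz j₀
  have hgp : ∀ y : Fin n → PadicInt p, ‖gp p m c δ y‖ = ‖GG m b y‖ := by
    intro y
    rw [PadicInt.norm_def]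
    congr 1
    unfold gp GG XX
    rw [PadicInt.coe_sum]
    refine Finset.sum_congr rfl fun j _ => ?_
    show (c j : ℚ_[p]) * (p : ℚ_[p]) ^ δ j * ∏ i, ((y i : PadicInt p) : Padic p) ^ m j i =
      ((cz j * (p : ℤ_[p]) ^ δ j * ∏ i, y i ^ m j i : ℤ_[p]) : ℚ_[p])
    push_cast
    have : ((∏ i, y i ^ m j i : ℤ_[p]) : ℚ_[p]) = ∏ i, ((y i : ℤ_[p]) : ℚ_[p]) ^ m j i := by
      have h := map_prod (PadicInt.Coe.ringHom (p := p)) (fun i => y i ^ m j i) Finset.univ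
      have h2 : ∀ i, PadicInt.Coe.ringHom (y i ^ m j i) = ((y i : ℤ_[p]) : ℚ_[p]) ^ m j i :=
        fun i => map_pow PadicInt.Coe.ringHom (y i) (m j i)
      rw [Finset.prod_congr rfl fun i _ => h2 i] at h
      exact h
    rw [this]
  have hmod : ∀ y : Fin n → PadicInt p,
      PadicInt.toZMod (GG m b y) = PadicInt.toZMod (GG m (bt τ) y) := by
    intro y
    unfold GG XX
    rw [map_sum, map_sum]
    refine Finset.sum_congr rfl fun j _ => ?_
    rw [map_mul PadicInt.toZMod (b j), map_mul PadicInt.toZMod (bt τ j)]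
    congr 1
    show PadicInt.toZMod (cz j * (p : ℤ_[p]) ^ δ j) =
      PadicInt.toZMod (if j ∈ τ then cz j else 0)
    by_cases h : δ j = 0
    · have hj : j ∈ τ := Finset.mem_filter.2 ⟨Finset.mem_univ j, h⟩
      rw [if_pos hj, h, pow_zero, mul_one]
    · have hj : j ∉ τ := fun h' => h (Finset.mem_filter.1 h').2
      rw [if_neg hj, map_zero, map_mul, map_pow, toZMod_p, zero_pow h, mul_zero]
  have hnd : ∀ y : Fin n → ℤ_[p], (∀ i, ‖y i‖ = 1) → ‖GG m b y‖ < 1 →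
      ∃ i, ‖DD m b i y‖ = 1 := fun y h1 h2 => hnd_of m b hB hpN j₀ hbj₀ y h1 h2
  have hUU0 : UU m b 0 = UU m (bt τ) 0 := by
    ext y
    show (∀ i, ‖y i‖ = 1) ∧ (p : ℤ_[p]) ^ (0 + 1) ∣ GG m b y ↔
      (∀ i, ‖y i‖ = 1) ∧ (p : ℤ_[p]) ^ (0 + 1) ∣ GG m (bt τ) y
    rw [zero_add, pow_one, ← toZMod_eq_zero', ← toZMod_eq_zero', hmod y]
  constructor
  · have hset : {y : Fin n → PadicInt p | (∀ i, ‖y i‖ = 1) ∧ ‖gp p m c δ y‖ = 1} =
        {y | (∀ i, ‖y i‖ = 1) ∧ ‖GG m (bt τ) y‖ = 1} := by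
      ext y
      simp only [Set.mem_ofPred_eq, hgp y]
      rw [← toZMod_ne_zero, ← toZMod_ne_zero, hmod y]
    rw [hset]
    show _ = (μ Set.univ).toReal * ((μ {y | (∀ i, ‖y i‖ = 1) ∧ ‖GG m (bt τ) y‖ = 1}).toReal /
      (μ Set.univ).toReal)
    field_simp
  · intro l
    have hset : {y : Fin n → PadicInt p | (∀ i, ‖y i‖ = 1) ∧
        ‖gp p m c δ y‖ = (p : ℝ) ^ (-((l : ℤ) + 1))} = UU m b l \ UU m b (l + 1) := by
      rw [← diff_eq]
      ext y
      simp only [Set.mem_ofPred_eq, hgp y]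
    rw [hset]
    have hsub : UU m b (l + 1) ⊆ UU m b l := fun y hy =>
      ⟨hy.1, (pow_dvd_pow _ (by omega)).trans hy.2⟩
    rw [measure_sdiff hsub (meas_UU m b (l + 1)).nullMeasurableSet (measure_ne_top μ _),
      ENNReal.toReal_sub_of_le (measure_mono hsub) (measure_ne_top μ _),
      UU_real m b hnd l μ, UU_real m b hnd (l + 1) μ, hUU0]
    show _ = (μ Set.univ).toReal * ((μ (UU m (bt τ) 0)).toReal / (μ Set.univ).toReal *
      (1 - (p : ℝ)⁻¹)) * (p : ℝ) ^ (-(l : ℤ))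
    have hp0 : (p : ℝ) ≠ 0 := by exact_mod_cast hp.out.ne_zero
    have e : (p : ℝ) ^ (-((l + 1 : ℕ) : ℤ)) = (p : ℝ) ^ (-(l : ℤ)) * (p : ℝ)⁻¹ := by
      rw [← zpow_sub_one₀ hp0]
      congr 1
      push_cast
      ring
    rw [e]
    field_simp

end Pool.Agent.W424.SM.ZMU
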